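import Pool.Agent.X245.GEN.Bs
import Pool.Agent.X245.GEN.Four

/-!
# Which languages reduce to d-to-1 Label Cover in constant depth?

The question asks for polynomial-time reductions of all languages in `NP` to the problem of
distinguishing value `1` from value less than `ε'`. Here it is proved, unconditionally, what
reductions of constant depth can do, for every language `f` (a set of strings of `N` bits).

1. Bounded fan-in: suppose that each entry of the list of constraints is determined by at most `t`
   bits of the input (which may depend on the input; for example, `b` bits of a constraint that are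
   computed by circuits of fan-in 2 and depth `h` depend on `t = b 2 ^ h` input bits), possibly with
   the help of random choices. Then `f` itself has a decision tree whose depth is at most `k ^ 3`,
   `k = ⌊t / ((1 - ε - δ) κ (1 - 2 η))⌋`. So if `t` is bounded then `f` depends only on a bounded
   number of bits: only languages in `NC⁰` reduce by `NC⁰` reductions, whatever the gap.
2. Conversely, every language with a decision tree of depth `t` reduces in this way.
3. Unbounded fan-in: if `f` reduces by circuits of depth `h` with at most `S` gates then `f` is the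
   sign of a polynomial of degree less than `k` at all but a fraction
   `(2 η N + b (24 log₂ (2 (h S N + 1))) ^ (h + 1) / (1 - ε - δ)) / k` of the inputs.

A reduction maps an input `x` with `N` bits to a list of edges with constraints, indexed by `E`
(`Y x r`, where `none` is an empty entry). `Right Sat ε δ p y`
(`Pool/Agent/X245/GEN/Core.lean`) says that the list `y` is not empty and that its value is at least
`1 - ε` if `p` is true, and at most `δ` if `p` is false. For reductions to Label Cover with perfect
completeness `ε = 0`.

The proof: if `x` is mapped to a yes instance and `x'` to a no instance then at least the fraction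
`1 - ε - δ` of the entries of one of them is not in the other. So if `f` changes at `x` when any of
`m` disjoint blocks of bits is changed, then an entry changes on the average for
`(1 - ε - δ) κ (1 - 2 η) m` of the blocks; but only `t` blocks can contain one of the bits that
determine it. So the block sensitivity of `f` is at most `k`, and the decision tree is that of Nisan
and of Beals, Buhrman, Cleve, Mosca and de Wolf. For 3 the switching lemma is used, as in
`MP_ec946a_lc.ConstantDepthReductions`, and the expansion in characters.
-/

set_option autoImplicit false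

namespace Pool.Agent.Results.MP_62e2f2_lc.ConstantDepthReductions

open Finset DomAC0 Pool.Agent.X246.ACR Pool.Agent.X245.GEN

open scoped Classical

/-- An edge `(v, w)` of a d-to-1 Label Cover instance with left labels `[R]` and right labels
`[d R]`, and its map `[d R] → [R]`, under which each element of `[R]` has at most `d` preimages. -/
abbrev Edge (V W : Type) (d R : ℕ) : Type :=
  V × W × {π : Fin (d * R) → Fin R // ∀ b, (univ.filter fun a => π a = b).card ≤ d}

/-- The labeling `l` satisfies the constraint: the map takes the label of `w` to that of `v`. -/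
def Sat {V W : Type} {d R : ℕ} (l : (V → Fin R) × (W → Fin (d * R))) (e : Edge V W d R) : Prop :=
  e.2.2.1 (l.2 e.2.1) = l.1 e.1

/-- At least the fraction `κ` of the entries of the list is not empty. -/
def Long {E K : Type} [Fintype E] (κ : ℝ) (y : E → Option K) : Prop :=
  κ * Fintype.card E ≤ ((univ.filter fun r => y r ≠ none).card : ℝ)

/-- The value of `g` at `x` is determined by at most `t` bits of `x`. -/
def LocalAt {N : ℕ} {α : Type} (t : ℕ) (g : (Fin N → Bool) → α) (x : Fin N → Bool) : Prop :=
  ∃ A : Finset (Fin N), A.card ≤ t ∧ ∀ y, (∀ i ∈ A, y i = x i) → g y = g x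

/-- Decision trees. -/
inductive Tree (N : ℕ) : Type
  | leaf (c : Bool) : Tree N
  | query (i : Fin N) (a b : Tree N) : Tree N

/-- The answer of the tree: it continues with `b` if the bit `i` is 1, and with `a` otherwise. -/
def Tree.eval {N : ℕ} : Tree N → (Fin N → Bool) → Bool
  | .leaf c, _ => c
  | .query i a b, x => if x i = true then b.eval x else a.eval x

/-- The depth of the tree. -/
def Tree.depth {N : ℕ} : Tree N → ℕ
  | .leaf _ => 0
  | .query _ a b => max a.depth b.depth + 1

/-- the translation of the trees of the library -/
def conv {N : ℕ} : Pool.Agent.TH163.AC3.Tree (Fin N) → Tree N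
  | .leaf c => .leaf c
  | .node i a b => .query i (conv a) (conv b)

theorem conv_eval {N : ℕ} (t : Pool.Agent.TH163.AC3.Tree (Fin N)) (x : Fin N → Bool) :
    (conv t).eval x = t.eval x := by
  induction t with
  | leaf c => rfl
  | node i a b iha ihb =>
    unfold conv Tree.eval Pool.Agent.TH163.AC3.Tree.eval
    rw [iha, ihb]

theorem conv_depth {N : ℕ} (t : Pool.Agent.TH163.AC3.Tree (Fin N)) :
    (conv t).depth = t.depth := by
  induction t with
  | leaf c => rfl
  | node i a b iha ihb =>
    unfold conv Tree.depth Pool.Agent.TH163.AC3.Tree.depth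
    rw [iha, ihb]

theorem tree_local {N : ℕ} (T : Tree N) (x : Fin N → Bool) : LocalAt T.depth T.eval x := by
  induction T with
  | leaf c => exact ⟨∅, by simp, fun y _ => rfl⟩
  | query i a b iha ihb =>
    obtain ⟨A, hA, hA2⟩ := iha
    obtain ⟨B, hB, hB2⟩ := ihb
    by_cases hx : x i = true
    · refine ⟨insert i B, ?_, fun y hy => ?_⟩
      · refine (card_insert_le _ _).trans ?_
        unfold Tree.depth
        have := le_max_right a.depth b.depth
        omega
      · have h1 := hy i (mem_insert_self _ _)
        unfold Tree.eval
        rw [h1, if_pos hx, if_pos hx]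
        exact hB2 y fun j hj => hy j (mem_insert_of_mem hj)
    · refine ⟨insert i A, ?_, fun y hy => ?_⟩
      · refine (card_insert_le _ _).trans ?_
        unfold Tree.depth
        have := le_max_left a.depth b.depth
        omega
      · have h1 := hy i (mem_insert_self _ _)
        unfold Tree.eval
        rw [h1, if_neg hx, if_neg hx]
        exact hA2 y fun j hj => hy j (mem_insert_of_mem hj)

theorem fiber_le {d R : ℕ} (σ : Equiv.Perm (Fin R)) (b : Fin R) :
    (univ.filter fun a : Fin (d * R) => σ a.modNat = b).card ≤ d := by
  have h1 : (univ.filter fun a : Fin (d * R) => σ a.modNat = b).card ≤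
      (univ : Finset (Fin d)).card := by
    refine card_le_card_of_injOn (fun a => a.divNat) (fun a _ => mem_coe.2 (mem_univ _)) ?_
    intro a ha a' ha' h
    rw [mem_coe, mem_filter] at ha ha'
    have h2 : a.modNat = a'.modNat := σ.injective (ha.2.trans ha'.2.symm)
    have h3 : finProdFinEquiv (a.divNat, a.modNat) = a := by
      have := finProdFinEquiv.apply_symm_apply a
      simpa [finProdFinEquiv] using this
    have h4 : finProdFinEquiv (a'.divNat, a'.modNat) = a' := by
      have := finProdFinEquiv.apply_symm_apply a'
      simpa [finProdFinEquiv] using this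
    rw [← h3, ← h4, h2]
    have h5 : a.divNat = a'.divNat := h
    rw [h5]
  rwa [card_univ, Fintype.card_fin] at h1

/-- the edge whose constraint is a permutation, after the projection `[d R] → [R]` -/
def perm {d R : ℕ} (σ : Equiv.Perm (Fin R)) : Edge Unit Unit d R :=
  ((), (), ⟨fun a => σ a.modNat, fiber_le σ⟩)

/-- the constraint `r` of the list for the upper bound: no shift, or a shift by `r` -/
def entry {d R : ℕ} [NeZero R] (u : Bool) (r : Fin R) : Option (Edge Unit Unit d R) :=
  some (perm (if u = true then 1 else Equiv.addRight r))

theorem entry_right {d R : ℕ} [NeZero R] (hd : 1 ≤ d) (p : Bool) :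
    Right Sat 0 (1 / R) p (entry (d := d) (R := R) p) := by
  have hR0 : 0 < R := Nat.pos_of_ne_zero (NeZero.ne R)
  have hq : (0 : ℝ) < R := by exact_mod_cast hR0
  have h0 : total (entry (d := d) (R := R) p) = R := by
    unfold total
    rw [filter_true_of_mem fun r _ => by simp [entry], card_univ, Fintype.card_fin]
  refine ⟨?_, ?_, ?_⟩
  · rw [h0]
    exact hR0
  · intro hp
    obtain ⟨z, hz⟩ : ∃ z : Fin (d * R), z.modNat = (0 : Fin R) := by
      refine ⟨⟨0, by positivity⟩, ?_⟩
      ext
      simp [Fin.modNat]
    refine ⟨(fun _ => 0, fun _ => z), ?_⟩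
    have h1 : good Sat (entry (d := d) (R := R) p) (fun _ => 0, fun _ => z) = R := by
      unfold good
      rw [filter_true_of_mem ?_, card_univ, Fintype.card_fin]
      intro r _
      refine ⟨_, rfl, ?_⟩
      unfold Sat
      show (if p = true then (1 : Equiv.Perm (Fin R)) else Equiv.addRight r) z.modNat = 0
      rw [if_pos hp, hz]
      rfl
    rw [h0, h1]
    simp
  · intro hp l
    have hf : ¬ p = true := by
      rw [hp]
      decide
    have h1 : good Sat (entry (d := d) (R := R) p) l ≤ 1 := by
      unfold good
      rw [card_le_one]
      intro r hr s hs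
      simp only [mem_filter, mem_univ, true_and] at hr hs
      obtain ⟨k, hk, hk2⟩ := hr
      obtain ⟨m, hm, hm2⟩ := hs
      have h2 : k = perm (Equiv.addRight r) := by
        have := Option.some_injective _ hk
        rw [← this, if_neg hf]
      have h3 : m = perm (Equiv.addRight s) := by
        have := Option.some_injective _ hm
        rw [← this, if_neg hf]
      rw [h2] at hk2
      rw [h3] at hm2
      have h4 : (l.2 ()).modNat + r = l.1 () := hk2
      have h5 : (l.2 ()).modNat + s = l.1 () := hm2
      exact add_left_cancel (h4.trans h5.symm)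
    rw [h0]
    have h2 : (good Sat (entry (d := d) (R := R) p) l : ℝ) ≤ 1 := by
      exact_mod_cast h1
    rw [one_div_mul_cancel hq.ne']
    exact h2

/-- Let `f` be any language.

(1) Suppose that for each input `x` the list is right with probability at least `1 - η`: it has value
at least `1 - ε` for members of `f` and at most `δ` for the other inputs, and at least a fraction `κ`
of its entries is not empty. If each entry is determined by at most `t` bits of the input, and
`t < (1 - ε - δ) κ (1 - 2 η) (k + 1)`, then `f` has a decision tree of depth at most `k ^ 3`.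

(2) Conversely, if `f` has a decision tree of depth at most `t` then there is a list with `R` entries,
all nonempty and determined by at most `t` bits, with value `1` for all members of `f` and value at
most `1 / R` for all other inputs.

(3) Suppose that for at least a fraction `1 - η` of all pairs of an input and a random choice the list
has value at least `1 - ε` for members of `f` and at most `δ` for the other inputs, and that its
entries are decoded from `b` nodes of depth at most `h` of a circuit with at most `S` gates. Then for
every `k ≥ 1` there is a real polynomial of degree less than `k` in the variables that are `1` if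
the bit is 1 and `-1` otherwise (the coefficient of the monomial with the variables in `T` is `c T`),
which is positive at the members of `f` and negative at the other inputs, at all but a fraction
`(2 η N + b (24 log₂ (2 (h S N + 1))) ^ (h + 1) / (1 - ε - δ)) / k` of the inputs. -/
theorem result :
    (∀ (N t d R k : ℕ) (Ω E V W : Type) [Fintype Ω] [Nonempty Ω] [Fintype E] (ε δ κ η : ℝ)
      (f : (Fin N → Bool) → Bool) (Y : Ω → (Fin N → Bool) → E → Option (Edge V W d R)),
      0 ≤ ε → 0 ≤ δ → ε + δ < 1 → 0 < κ → η < 1 / 2 →
      (∀ ω r x, LocalAt t (fun x => Y ω x r) x) →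
      (∀ x, (1 - η) * Fintype.card Ω ≤ ((univ.filter fun ω =>
        Right Sat ε δ (f x) (Y ω x) ∧ Long κ (Y ω x)).card : ℝ)) →
      t < (1 - ε - δ) * κ * (1 - 2 * η) * (k + 1) →
      ∃ T : Tree N, T.depth ≤ k ^ 3 ∧ ∀ x, T.eval x = f x) ∧
    (∀ (N t d R : ℕ) (f : (Fin N → Bool) → Bool), 1 ≤ d → 1 ≤ R →
      (∃ T : Tree N, T.depth ≤ t ∧ ∀ x, T.eval x = f x) →
      ∃ Y : (Fin N → Bool) → Fin R → Option (Edge Unit Unit d R),
        (∀ r x, LocalAt t (fun x => Y x r) x) ∧
        ∀ x, Right Sat 0 (1 / R) (f x) (Y x) ∧ Long 1 (Y x)) ∧
    (∀ (N b d R h S k : ℕ) (Ω E V W : Type) [Fintype Ω] [Nonempty Ω] [Fintype E] (ε δ η : ℝ)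
      (f : (Fin N → Bool) → Bool) (C : Ω → Circuit (Fin N))
      (out : ∀ ω, E → Fin b → Fin N ⊕ Fin (C ω).size)
      (dec : Ω → E → (Fin b → Bool) → Option (Edge V W d R)),
      1 ≤ b → 1 ≤ k → (∀ ω, (C ω).size ≤ S) → (∀ ω r j, (C ω).nodeDepth (out ω r j) ≤ h) →
      0 ≤ ε → 0 ≤ δ → ε + δ < 1 →
      (1 - η) * (2 ^ N * Fintype.card Ω) ≤ ((univ.filter fun p : Ω × (Fin N → Bool) =>
        Right Sat ε δ (f p.2) (inst (C p.1) (out p.1) (dec p.1) p.2)).card : ℝ) →
      ∃ c : Finset (Fin N) → ℝ, (∀ T, k ≤ T.card → c T = 0) ∧
        ((univ.filter fun x : Fin N → Bool => (if f x = true then 1 else -1) *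
          ∑ T, c T * ∏ i ∈ T, (if x i = true then 1 else -1) ≤ 0).card : ℝ) ≤
          (2 * η * N + b * (24 * Real.logb 2 (2 * (h * S * N + 1))) ^ (h + 1) / (1 - ε - δ)) / k *
            2 ^ N) := by
  refine ⟨?_, ?_, ?_⟩
  · intro N t d R k Ω E V W _ _ _ ε δ κ η f Y hε hδ hεδ hκ hη hY hA hk
    have hbs : ∀ x, BsLe k f x := by
      intro x m B hB hs
      have h1 := local_bs (sat := Sat) hε hδ hεδ hκ.le t f Y (fun ω r x => hY ω r x)
        (fun x => (hA x).trans (le_of_eq (by
          congr 2))) x m B hB hs
      by_contra hcon
      have h2 : (k : ℝ) + 1 ≤ m := by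
        have : k + 1 ≤ m := by omega
        exact_mod_cast this
      have h3 : 0 < (1 - ε - δ) * κ * (1 - 2 * η) :=
        mul_pos (mul_pos (by linarith) hκ) (by linarith)
      have h4 := mul_le_mul_of_nonneg_left h2 h3.le
      linarith
    obtain ⟨T, hT, hT2⟩ := hasDT_cube hbs
    exact ⟨conv T, by rw [conv_depth]; exact hT, fun x => by rw [conv_eval]; exact hT2 x⟩
  · rintro N t d R f hd hR ⟨T, hT, hT2⟩
    have : NeZero R := ⟨by omega⟩
    refine ⟨fun x => entry (f x), fun r x => ?_, fun x => ⟨entry_right hd (f x), ?_⟩⟩
    · obtain ⟨A, hA, hA2⟩ := tree_local T x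
      refine ⟨A, hA.trans hT, fun y hy => ?_⟩
      show entry (f y) r = entry (f x) r
      rw [← hT2, ← hT2, hA2 y hy]
    · unfold Long
      rw [filter_true_of_mem fun r _ => by simp [entry], card_univ, one_mul]
  · intro N b d R h S k Ω E V W _ _ _ ε δ η f C out dec hb hk hS hh hε hδ hεδ hA
    have h1 := ac0_most (sat := Sat) hε hδ hεδ f C hb out dec h S hh hS (by convert hA)
    obtain ⟨c, hc, hc2⟩ := low_degree f k hk
    refine ⟨c, hc, ?_⟩
    have hk0 : (0 : ℝ) < k := by exact_mod_cast hk
    have hg : 0 < 1 - ε - δ := by linarith
    have h2 : avgSens f ≤ 2 * η * N +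
        b * (24 * Real.logb 2 (2 * (h * S * N + 1))) ^ (h + 1) / (1 - ε - δ) := by
      have h3 : avgSens f - 2 * η * N ≤
          b * (24 * Real.logb 2 (2 * (h * S * N + 1))) ^ (h + 1) / (1 - ε - δ) := by
        rw [le_div_iff₀ hg, mul_comm]
        exact h1
      linarith
    have h3 : avgSens f / k * 2 ^ N ≤ (2 * η * N +
        b * (24 * Real.logb 2 (2 * (h * S * N + 1))) ^ (h + 1) / (1 - ε - δ)) / k * 2 ^ N := by
      refine mul_le_mul_of_nonneg_right ?_ (by positivity)
      exact div_le_div_of_nonneg_right h2 hk0.le
    refine le_trans (le_of_eq ?_) (hc2.trans h3)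
    congr 3

end Pool.Agent.Results.MP_62e2f2_lc.ConstantDepthReductions
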