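import Pool.Agent.TH522.DG.Main

/-!
# `d`-to-1 Label Cover and the mixed hierarchy at level `n ^ (O(log d log log (1/s) / log (1/s)))`

The mixed hierarchy (Sherali-Adams plus the basic semidefinite program) proves at level
`n ^ (O(x log (2 / x)))`, `x = log (256 d / c ^ 4) / log (1 / s)`, that a `d`-to-1 Label Cover instance
with `n` right vertices (those with the large label set) has value less than `c`, if its value is
less than `c ^ 5 s / 2 ^ 19`; there is no restriction on the graph and on the numbers of labels. In
particular, for perfect completeness (`c = 1`) and soundness `s` the exponent is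
`O(log d log log (1 / s) / log (1 / s))`: it tends to zero if `s` does.

Proof (`Pool/Agent/TH522/DG`): consider the pairs of edges with a common left vertex, as a weighted
graph on the right vertices. For a soft part of this graph (a weight function found with a chain of
inequalities between `L ^ p` and `L ^ 2` norms) a local correlation implies a global one. So after
conditioning on the labels of few right vertices the images of the labels at the two ends of the
pairs of edges agree with a good probability already if the labels are drawn independently.
This is rounded to a set of right vertices with a distribution of labels at each vertex; a greedy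
union of such sets, and then the best labels of the left vertices, give the labeling.
-/

set_option autoImplicit false

namespace Pool.Agent.Results.MP_62e2f2_lc.MixedHierarchy

open Finset

/-- `f` depends only on the labels of the right vertices in `S` and of the left vertices in `T`. -/
def DependsOn {V W A B : Type} (S : Finset W) (T : Finset V) (f : (W → A) × (V → B) → ℝ) : Prop :=
  ∀ z z' : (W → A) × (V → B), (∀ w ∈ S, z.1 w = z'.1 w) → (∀ v ∈ T, z.2 v = z'.2 v) → f z = f z'

/-- `L` is a solution of level `k` of the mixed hierarchy: a normalised linear functional on the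
functions of a labeling `z` (labels `z.1 w ∈ A` of the right vertices and `z.2 v ∈ B` of the left
vertices) which is nonnegative on all nonnegative functions of at most `k + 2` labels
(Sherali-Adams), and such that after conditioning on at most `k` labels (the weight `g`) the matrix
of the pair moments is positive semidefinite (basic semidefinite program). Only the values of `L`
on functions of at most `k + 2` labels matter. -/
structure IsMixed {V W A B : Type} [Fintype V] [Fintype W] (k : ℕ)
    (L : ((W → A) × (V → B) → ℝ) →ₗ[ℝ] ℝ) : Prop where
  one : L (fun _ => 1) = 1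
  nonneg : ∀ (S : Finset W) (T : Finset V), S.card + T.card ≤ k + 2 →
    ∀ f : (W → A) × (V → B) → ℝ, DependsOn S T f → (∀ z, 0 ≤ f z) → 0 ≤ L f
  psd : ∀ (S : Finset W) (T : Finset V), S.card + T.card ≤ k →
    ∀ g : (W → A) × (V → B) → ℝ, DependsOn S T g → (∀ z, 0 ≤ g z) →
    ∀ (a : W → A → ℝ) (b : V → B → ℝ),
      0 ≤ L (fun z => g z * (∑ w, a w (z.1 w) + ∑ v, b v (z.2 v)) ^ 2)

/-- Consider the Label Cover instance with left vertices `V`, right vertices `W`, left labels `B`,
right labels `A`, edges `(v e, w e)` and maps `π e : A → B` all of whose fibres have at most `d ≥ 1`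
elements. Let `0 < c ≤ 1`, `log (256 d / c ^ 4) ≤ l ≤ log |W|`, `x = log (256 d / c ^ 4) / l` and
`k ≥ |W| ^ (9 x log (2 / x))`. If level `k` of the mixed hierarchy has a solution of value at least
`c`, then some labeling satisfies at least a fraction `c ^ 5 e ^ (-l) / 2 ^ 19` of the edges. -/
theorem result (V W A B E : Type) [Fintype V] [Fintype W] [Fintype E] [Fintype A] [Fintype B]
    [DecidableEq B] (v : E → V) (w : E → W) (π : E → A → B) (d k : ℕ) (c l x : ℝ)
    (L : ((W → A) × (V → B) → ℝ) →ₗ[ℝ] ℝ) (hd : 1 ≤ d)
    (hfib : ∀ e b, (univ.filter fun a => π e a = b).card ≤ d) (hc : 0 < c) (hc1 : c ≤ 1)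
    (hl : Real.log (256 * d / c ^ 4) ≤ l) (hlW : l ≤ Real.log (Fintype.card W))
    (hx : x = Real.log (256 * d / c ^ 4) / l)
    (hk : (Fintype.card W : ℝ) ^ (9 * (x * Real.log (2 / x))) ≤ k)
    (hL : IsMixed k L)
    (hval : c * (Fintype.card E : ℝ) ≤
      ∑ e, L (fun z => if π e (z.1 (w e)) = z.2 (v e) then 1 else 0)) :
    ∃ (M : W → A) (N : V → B), c ^ 5 * Real.exp (-l) / 2 ^ 19 * (Fintype.card E : ℝ) ≤
      ((univ.filter fun e => π e (M (w e)) = N (v e)).card : ℝ) := by
  have hd1 : (1 : ℝ) ≤ d := by exact_mod_cast hd
  have h256 : (1 : ℝ) < 256 * d / c ^ 4 := by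
    rw [lt_div_iff₀ (by positivity), one_mul]
    have h1 : c ^ 4 ≤ 1 := pow_le_one₀ hc.le hc1
    linarith
  have hl0 : 0 < l := lt_of_lt_of_le (Real.log_pos h256) hl
  exact Pool.Agent.TH522.DG.core v w π d hfib c l x hc hc1 hx hl0 hl hlW k hk L
    ⟨hL.one, hL.nonneg, hL.psd⟩ hval

end Pool.Agent.Results.MP_62e2f2_lc.MixedHierarchy
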