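import Pool.Agent.X246.ACR.Ptf

/-!
# Hardness reductions to `d`-to-1 Label Cover with polynomial threshold functions

The conjecture asks for polynomial-time reductions. Here a reduction maps an input `x` with `N` bits to
a list of edges with constraints, indexed by `J` (`none` is an empty entry), and each entry of the list
is an arbitrary function of `s` polynomial threshold functions of `x` of degree at most `k`, that is,
signs of real polynomials of degree at most `k`, with arbitrary real coefficients (they may be
different for all entries). It is proved that if such a reduction shows that `d`-to-1 Label Cover with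
value `1` or less than `δ`, or even with value at least `1 - ε` or at most `δ`, `ε + δ < 1`, is hard
for `NP`, or only for parity, then `s ≥ c N ^ (2 ^ (- k))`; this holds also if the reduction is
randomised and is correct only for slightly more than half of all inputs. So for example every
constraint must depend on the signs of at least `N ^ Ω(1)` polynomials of bounded degree, and on the
signs of `exp (√(log N))` polynomials of degree `(log log N) / 3`.

`Correct Sat ε δ Y x` (`Pool/Agent/X246/ACR/Ac0.lean`) says that the list is not empty and that its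
value is at least `1 - ε` if the number of ones of `x` is even, and at most `δ` if it is odd.

The proof: whenever a yes instance becomes a no instance, a fraction `1 - ε - δ` of the entries must
change. On the other hand a polynomial threshold function `f` of degree `k` has average sensitivity at
most `2 N ^ (1 - 2 ^ (- k))`: the influence of the variable `i` is the correlation of `f` with
`x i g_i (x)`, where the sign `g_i` of the derivative is a polynomial threshold function of degree
`k - 1` which does not depend on `x i`, and the second moment of `∑ x i g_i (x)` is bounded by the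
average sensitivities of the `g_i`.
-/

set_option autoImplicit false

namespace Pool.Agent.Results.MP_62e2f2_lc.PolynomialThresholdReductions

open Finset Pool.Agent.X246.ACR

open scoped Classical

/-- An edge `(v, w)` of a `d`-to-1 Label Cover instance with the left labels `[R]` and the right
labels `[d R]`, and its projection. -/
abbrev Edge (V W : Type) (d R : ℕ) : Type :=
  V × W × {π : Fin (d * R) → Fin R // ∀ b, (univ.filter fun a => π a = b).card ≤ d}

/-- The labeling `l` satisfies the constraint. -/
def Sat {V W : Type} {d R : ℕ} (l : (V → Fin R) × (W → Fin (d * R))) (e : Edge V W d R) : Prop :=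
  e.2.2.1 (l.2 e.2.1) = l.1 e.1

/-- The list whose entry `j` is obtained by `dec j` from the values of the functions `f j i`. -/
def list {N s d R : ℕ} {J V W : Type} (f : J → Fin s → (Fin N → Bool) → Bool)
    (dec : J → (Fin s → Bool) → Option (Edge V W d R)) (x : Fin N → Bool) (j : J) :
    Option (Edge V W d R) := dec j fun i => f j i x

/-- At least the fraction `κ` of the entries of the list is not empty. -/
def Long {J K : Type} [Fintype J] (κ : ℝ) (y : J → Option K) : Prop :=
  κ * Fintype.card J ≤ ((univ.filter fun j => y j ≠ none).card : ℝ)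

/-- `f` is a polynomial threshold function of degree at most `k`. -/
def IsPTF {N : ℕ} (k : ℕ) (f : (Fin N → Bool) → Bool) : Prop :=
  ∃ P : MvPolynomial (Fin N) ℝ, P.totalDegree ≤ k ∧
    ∀ x, f x = true ↔ 0 ≤ MvPolynomial.eval (fun i => if x i = true then (1 : ℝ) else 0) P

/-- (1) Suppose that each entry of the list of `x` is an arbitrary function of `s` polynomial threshold
functions of degree at most `k`, that for at least a fraction `1 / 2 + γ` of all pairs of an input `x`
and a random choice `ω` the list has value at least `1 - ε` if `x` is even and at most `δ` if `x` is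
odd, and that then at least a fraction `κ` of its entries is not empty. Then
`s ≥ (1 - ε - δ) κ γ N ^ (1 / 2 ^ k)`.

(2) The average sensitivity of a polynomial threshold function of degree at most `k` is at most
`2 N ^ (1 - 1 / 2 ^ k)`. -/
theorem result :
    (∀ (N s k d R : ℕ) (Ω J V W : Type) [Fintype Ω] [Nonempty Ω] [Fintype J] (ε δ κ γ : ℝ)
      (f : Ω → J → Fin s → (Fin N → Bool) → Bool)
      (dec : Ω → J → (Fin s → Bool) → Option (Edge V W d R)),
      (∀ ω j i, IsPTF k (f ω j i)) → 1 ≤ N → 0 ≤ ε → 0 ≤ δ → ε + δ < 1 → 0 ≤ κ → 0 < γ →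
      (1 / 2 + γ) * (2 ^ N * Fintype.card Ω) ≤ ((univ.filter fun p : Ω × (Fin N → Bool) =>
        Correct Sat ε δ (list (f p.1) (dec p.1)) p.2 ∧
          Long κ (list (f p.1) (dec p.1) p.2)).card : ℝ) →
      (1 - ε - δ) * κ * γ * (N : ℝ) ^ (1 / 2 ^ k : ℝ) ≤ s) ∧
    (∀ (N k : ℕ) (f : (Fin N → Bool) → Bool), 1 ≤ N → IsPTF k f →
      (∑ x : Fin N → Bool,
        ((univ.filter fun i => f (Function.update x i (!x i)) ≠ f x).card : ℝ)) / 2 ^ N ≤
        2 * (N : ℝ) ^ (1 - 1 / 2 ^ k : ℝ)) := by
  have hP : ∀ (N k : ℕ) (f : (Fin N → Bool) → Bool), 1 ≤ N → IsPTF k f →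
      tsens f ≤ 2 ^ N * (2 * (N : ℝ) ^ (1 - 1 / 2 ^ k : ℝ)) := by
    rintro N k f hN ⟨P, hP, hf⟩
    exact ptf_sens hN k f ⟨_, deg_eval P k hP, hf⟩
  refine ⟨?_, ?_⟩
  · intro N s k d R Ω J V W _ _ _ ε δ κ γ f dec hf hN hε hδ hεδ hκ hγ hA
    obtain ⟨ω, hω⟩ := exists_index (fun ω x => Correct Sat ε δ (list (f ω) (dec ω)) x ∧
      Long κ (list (f ω) (dec ω) x)) γ (by convert hA)
    have h1 := tsens_avg (sat := Sat) hε hδ hεδ hκ hγ (f ω)
      (fun r j => hP N k _ hN (hf ω r j)) (dec ω) (hω.trans (le_of_eq (by
        congr 2
        ext x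
        simp only [mem_filter]
        exact Iff.rfl)))
    have hN' : (0 : ℝ) < N := by exact_mod_cast hN
    have h2 : (0 : ℝ) < (N : ℝ) ^ (1 - 1 / 2 ^ k : ℝ) := Real.rpow_pos_of_pos hN' _
    have h3 : (N : ℝ) ^ (1 / 2 ^ k : ℝ) * (N : ℝ) ^ (1 - 1 / 2 ^ k : ℝ) = N := by
      rw [← Real.rpow_add hN']
      have : (1 / 2 ^ k : ℝ) + (1 - 1 / 2 ^ k) = 1 := by ring
      rw [this, Real.rpow_one]
    have h4 : ((1 - ε - δ) * κ * γ * (N : ℝ) ^ (1 / 2 ^ k : ℝ)) * (N : ℝ) ^ (1 - 1 / 2 ^ k : ℝ) ≤
        s * (N : ℝ) ^ (1 - 1 / 2 ^ k : ℝ) := by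
      have h5 : ((1 - ε - δ) * κ * γ * (N : ℝ) ^ (1 / 2 ^ k : ℝ)) * (N : ℝ) ^ (1 - 1 / 2 ^ k : ℝ) =
          (1 - ε - δ) * κ * γ * N := by
        rw [mul_assoc, h3]
      rw [h5]
      linarith
    exact le_of_mul_le_mul_right h4 h2
  · intro N k f hN hf
    rw [div_le_iff₀ (by positivity)]
    have h1 := hP N k f hN hf
    unfold tsens at h1
    rw [mul_comm] at h1
    exact h1

end Pool.Agent.Results.MP_62e2f2_lc.PolynomialThresholdReductions
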