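import Pool.Agent.X240.SH.GapC
import Pool.Agent.X240.SH.GapFree

/-!
# Reductions to `d`-to-1 Label Cover which produce a gap are slow

The conjecture asks for polynomial-time reductions from all problems in `NP` to `d`-to-1 Label Cover
with value `1` or less than `ε`. Here the source is the set of the directed graphs with `V` vertices,
given by their adjacency matrices as words of `n = V ^ 2` bits, which have an odd number of cycles of
length two, and a reduction is computed by a nonuniform transducer with `k` two-way heads, which move
by at most one position in a step, and at most `2 ^ S` configurations; in every step it may write any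
number of constraints, with vertices in any sets.  The reduction may be randomized: for every graph the
output of the first `T` steps is right with probability at least `2 / 3`.

(1) For every `d` and `R`, if the reduction is to the values `1` or at most `δ < 1`, or even at least
`1 - ε` or at most `δ`, then
`(1 - ε - δ) ^ 2 V ^ 6 ≤ 1.8 * 10 ^ 9 k (S + 1) (k T + V ^ 2) ^ 2`. So for a bounded number of heads and
a constant gap `T ≥ c V ^ 3 / sqrt (S + 1)`, which is `n ^ (3 / 2 - o(1))` for `S = n ^ o(1)`.

(2) Without a gap one head, one state and one sweep over the input are enough, for every `d ≥ 2` and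
`R = 2`: there is a transducer with one head and one state which writes in `V ^ 2` steps, at most `6`
constraints in each, an instance whose value is `1` if and only if the number of the cycles is odd.

Proof of (1). The upper right and the lower left quarter of the matrix are filled with bits `x i c`, row
by row, and `y i c`, column by column, so that the answer is their inner product modulo two. Divide the
input into zones and the time into windows. For most zones `b` of the second part the transcript of
`b` (the configurations at the beginning and at the end of the windows in which `b` is visited) is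
short, and only a small fraction of the constraints is written in these windows. The inputs with the
same transcript of `b` form, for the bits of `b` and of the zones which are not visited in these
windows, a rectangle, and the constraints which are written outside of the windows are functions of the
first matrix only. As a yes instance and a no instance differ in a constant fraction of the
constraints, the answer is for most inputs a function of the first matrix only, which contradicts the
lemma of Lindsey (`Pool.Agent.X240.SH.GapE`, `GapE2`, `GapM`, `GapC`).
-/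

set_option autoImplicit false

namespace Pool.Agent.Results.MP_62e2f2_lc.SlowHeadReductions

open Finset Pool.Agent.X240.SH Pool.Agent.X240.SH.GapFree

/-- An edge `(v, w)` of a `d`-to-1 Label Cover instance with the left labels `[R]` and the right
labels `[d R]`, and its projection. -/
abbrev Edge (A B : Type) (d R : ℕ) : Type :=
  A × B × {π : Fin (d * R) → Fin R // ∀ b, (univ.filter fun a => π a = b).card ≤ d}

/-- The labeling `l` satisfies the constraint. -/
def Sat {A B : Type} {d R : ℕ} (l : (A → Fin R) × (B → Fin (d * R))) (e : Edge A B d R) : Prop :=
  e.2.2.1 (l.2 e.2.1) = l.1 e.1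

/-- the label of a bit -/
def bit2 (b : Bool) : Fin 2 := if b = true then 1 else 0

theorem decide_bit2 : ∀ b, decide (bit2 b = 1) = b := by
  decide

/-- the projection of a constraint -/
def mp {d : ℕ} (φ : Bool → Bool) (x : Fin (d * 2)) : Fin 2 :=
  bit2 (xor (decide (x.modNat = 1)) (φ (decide ((x.divNat : ℕ) = 1))))

theorem bit2_lem : ∀ (y y' : Fin 2) (c : Bool), bit2 (xor (decide (y = 1)) c) =
    bit2 (xor (decide (y' = 1)) c) → y = y' := by
  decide

theorem lab_ext {d : ℕ} (x y : Fin (d * 2)) (h1 : x.divNat = y.divNat) (h2 : x.modNat = y.modNat) :
    x = y := by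
  apply Fin.ext
  have e1 : (x : ℕ) / 2 = (y : ℕ) / 2 := congrArg Fin.val h1
  have e2 : (x : ℕ) % 2 = (y : ℕ) % 2 := congrArg Fin.val h2
  omega

theorem mp_fiber {d : ℕ} (φ : Bool → Bool) (b : Fin 2) :
    (univ.filter fun a : Fin (d * 2) => mp φ a = b).card ≤ d := by
  have h1 : (univ.filter fun a : Fin (d * 2) => mp φ a = b).card ≤
      (univ : Finset (Fin d)).card := by
    apply card_le_card_of_injOn (fun a : Fin (d * 2) => a.divNat)
    · intro a _
      exact mem_coe.mpr (mem_univ _)
    · intro a ha a' ha' h
      have h2 := (mem_filter.mp (mem_coe.mp ha)).2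
      have h3 := (mem_filter.mp (mem_coe.mp ha')).2
      simp only at h
      apply lab_ext a a' h
      unfold mp at h2 h3
      rw [h] at h2
      exact bit2_lem _ _ _ (h2.trans h3.symm)
  rwa [card_univ, Fintype.card_fin] at h1

/-- the edge of a constraint -/
def edge {N d : ℕ} (c : Con N) : Edge (Bool × Fin (N + 1)) (Fin (N + 1)) d 2 :=
  (c.1, c.2.1, ⟨mp c.2.2, mp_fiber c.2.2⟩)

/-- the label of a pair of bits -/
def code {d : ℕ} (hd : 2 ≤ d) (s b : Bool) : Fin (d * 2) :=
  ⟨(if s then 1 else 0) + (if b then 2 else 0), by
    have : (if s then 1 else 0) + (if b then 2 else 0) < 4 := by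
      cases s <;> cases b <;> decide
    omega⟩

theorem mp_code {d : ℕ} (hd : 2 ≤ d) (s b : Bool) (φ : Bool → Bool) :
    mp φ (code hd s b) = bit2 (xor s (φ b)) := by
  unfold mp
  have h1 : decide ((code hd s b).modNat = 1) = s := by
    have e : (((code hd s b).modNat : Fin 2) : ℕ) =
        ((if s then 1 else 0) + (if b then 2 else 0)) % 2 := rfl
    have e' : ((code hd s b).modNat = 1) ↔ s = true := by
      rw [Fin.ext_iff, e]
      cases s <;> cases b <;> decide
    exact (decide_eq_decide.mpr e').trans (by cases s <;> rfl)
  have h2 : decide (((code hd s b).divNat : ℕ) = 1) = b := by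
    have e : (((code hd s b).divNat : Fin d) : ℕ) =
        ((if s then 1 else 0) + (if b then 2 else 0)) / 2 := rfl
    have e' : (((code hd s b).divNat : ℕ) = 1) ↔ b = true := by
      rw [e]
      cases s <;> cases b <;> decide
    exact (decide_eq_decide.mpr e').trans (by cases b <;> rfl)
  rw [h1, h2]

/-- (1) Let `p`, `M` be a random transducer with `k ≥ 1` two-way heads for words of `V ^ 2` bits and
with at most `2 ^ S` configurations. If for all directed graphs `a` with `V ≥ 2` vertices the output of
the first `T` steps is with probability at least `2 / 3` a nonempty list of `d`-to-1 constraints whose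
value is at least `1 - ε` (if `a` has an odd number of cycles of length two) or at most `δ` (otherwise),
`ε + δ < 1`, then `(1 - ε - δ) ^ 2 * V ^ 6 ≤ 1800000000 * k * (S + 1) * (k * T + V ^ 2) ^ 2`.

(2) For `d ≥ 2` there is a transducer with one head and one state which writes in `V ^ 2` steps, at
most `6` constraints in each step, an instance with the label sets `[2]`, `[2 d]` and
`2 * V ^ 2 + 2`, `V ^ 2 + 1` vertices whose value is `1` if the number of the cycles is odd and less
than `1` otherwise. -/
theorem result :
    (∀ (V k T S d R : ℕ) (A B Ω : Type) [Fintype Ω] (ε δ : ℝ) (p : Ω → ℝ)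
      (M : Ω → Transducer Bool (Edge A B d R) (V * V) k),
      (∀ ω, 0 ≤ p ω) → ∑ ω, p ω = 1 → 2 ≤ V → 1 ≤ k → 0 ≤ ε → 0 ≤ δ → ε + δ < 1 →
      (∀ ω, Fintype.card (M ω).Q * (V * V) ^ k ≤ 2 ^ S) →
      (∀ a : Fin V → Fin V → Bool, twoCycles a % 2 = 1 →
        2 / 3 ≤ probOut p M T (gword V a) (ValueGe Sat (1 - ε))) →
      (∀ a : Fin V → Fin V → Bool, twoCycles a % 2 = 0 →
        2 / 3 ≤ probOut p M T (gword V a) (ValueLe Sat δ)) →
      (1 - ε - δ) ^ 2 * V ^ 6 ≤ 1800000000 * (k * (S + 1) * (k * T + V ^ 2) ^ 2)) ∧
    (∀ V d : ℕ, 0 < V → 2 ≤ d → ∃ (A B : Type) (_ : Fintype A) (_ : Fintype B)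
      (M : Transducer Bool (Edge A B d 2) (V * V) 1),
      Fintype.card A = 2 * V ^ 2 + 2 ∧ Fintype.card B = V ^ 2 + 1 ∧ Fintype.card M.Q = 1 ∧
      (∀ x t, (M.output (V * V) x t).length ≤ 6) ∧
      ∀ a : Fin V → Fin V → Bool,
        (twoCycles a % 2 = 1 → ValueGe Sat 1 (M.output (V * V) (gword V a))) ∧
        (twoCycles a % 2 = 0 → ∀ l, good Sat (M.output (V * V) (gword V a)) l <
          total (M.output (V * V) (gword V a)))) := by
  constructor
  · intro V k T S d R A B Ω _ ε δ p M hp hp1 hV hk hε hδ hεδ hS hyes hno
    exact GapC.csp_bound Sat V k T S ε δ p hp hp1 M hV hk hε hδ hεδ hyes hno hS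
  · intro V d hV hd
    obtain ⟨R, h1, h2, h3⟩ := gap_free V hV
      (Sat (A := Bool × Fin (V * V + 1)) (B := Fin (V * V + 1)) (d := d) (R := 2)) edge (by
        intro l r
        refine ⟨(fun u => bit2 (l u), fun v => code hd (r v).1 (r v).2), ?_⟩
        intro c hc
        unfold CSat at hc
        unfold Sat edge
        simp only
        rw [mp_code, hc]) (by
        intro l'
        refine ⟨fun u => decide (l'.1 u = 1), fun v => (decide ((l'.2 v : Fin (d * 2)).modNat = 1),
          decide ((((l'.2 v : Fin (d * 2)).divNat : Fin d) : ℕ) = 1)), ?_⟩
        intro c hc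
        unfold Sat edge at hc
        simp only at hc
        unfold CSat
        simp only
        rw [← hc]
        unfold mp
        rw [decide_bit2])
    refine ⟨Bool × Fin (V * V + 1), Fin (V * V + 1), inferInstance, inferInstance, R, ?_, ?_, h1, h2,
      h3⟩
    · rw [Fintype.card_prod, Fintype.card_bool, Fintype.card_fin]
      ring
    · rw [Fintype.card_fin]
      ring

end Pool.Agent.Results.MP_62e2f2_lc.SlowHeadReductions
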